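import Mathlib
import Pool.Agent.TH21.PN.Fam

/-!
# The first case of the Fermat-Catalan equation with the exponents `q r`, `p r`, `p q`

Let `p, q, r > 1` be odd and pairwise coprime. The equation `a ^ m + b ^ n = c ^ k` with exponents `m, n, k`
that are multiples of `q r`, `p r` and `p q` respectively is considered in its first case: `a, b, c` are
pairwise coprime integers, `a` is prime to `p`, `b` is prime to `q` and `c` is prime to `r`.

1. A criterion of Sophie Germain type: there is no such solution if some prime `t` is auxiliary for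
   `p, q, r` (`Auxiliary`), a condition on the powers modulo `t` only.
2. There is no such solution if `p, q, r` are different primes between `5` and `61`.
3. For all primes `q ≠ r` between `11` and `61` there is a residue class `a` modulo `M`, `a` prime to
   `M`, such that there is no such solution for any odd `p > 1` prime to `q r` in this class (so for a
   positive proportion of the primes `p`).
4. For the `22` pairs `(q, r)` of `pairsA` there is no such solution for any odd `p > 1` prime to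
   `q r` which is not `1` or `-1` modulo `2 q r + 1`.
5. For the `14` pairs `(q, r)` of `pairsB` there is no such solution for any odd `p > 1` prime to `q r`
   which is not `1` or `-1` modulo `2 q r + 1` and not `1` modulo `2 q r`.

The proof is elementary. The three factorisations of `X ^ (q r) + Y ^ (p r)` etc. and the hypotheses of
the first case give that `Y ^ r + Z ^ q`, `X ^ r + Z ^ p` and `X ^ q + Y ^ p` are powers with the exponents
`q r`, `p r`, `p q`, and these relations are shown to be contradictory modulo `t`. The development is the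
library `Pool.Agent.TH21.PN` of the starting repository, which is used by no starting hand-in.
-/

set_option autoImplicit false

namespace Pool.Agent.Results.MP_5585eb_nt.FirstCaseProductExponents

/-- The first case has no solution: there are no exponents `m, n, k` divisible by `q r`, `p r` and `p q`
respectively, and no pairwise coprime integers `a, b, c` with `a ^ m + b ^ n = c ^ k` such that `a` is
prime to `p`, `b` is prime to `q` and `c` is prime to `r`. -/
def NoFirstCase (p q r : ℕ) : Prop :=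
  ∀ m n k : ℕ, q * r ∣ m → p * r ∣ n → p * q ∣ k → ∀ a b c : ℤ,
    IsCoprime a b → IsCoprime a c → IsCoprime b c →
    IsCoprime a (p : ℤ) → IsCoprime b (q : ℤ) → IsCoprime c (r : ℤ) → a ^ m + b ^ n ≠ c ^ k

/-- The prime `t` is auxiliary for `p, q, r`: modulo `t`
* `p`, `q`, `r` are not powers, with the exponents `q r`, `p r`, `p q` respectively, of nonzero residues;
* `1 - u` is not a power with the exponent `q r` (`p r`, `p q`) for any `u ≠ 1` with `u ^ p = 1`
  (`u ^ q = 1`, `u ^ r = 1`, respectively);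
* there are no nonzero `x, y, z` with `x ^ (q r) + y ^ (p r) + z ^ (p q) = 0` for which `y ^ r + z ^ q`,
  `x ^ r + z ^ p` and `x ^ q + y ^ p` are powers with the exponents `q r`, `p r` and `p q`. -/
structure Auxiliary (p q r t : ℕ) : Prop where
  prime : t.Prime
  notPowP : ∀ a : ZMod t, a ≠ 0 → a ^ (q * r) ≠ (p : ZMod t)
  notPowQ : ∀ a : ZMod t, a ≠ 0 → a ^ (p * r) ≠ (q : ZMod t)
  notPowR : ∀ a : ZMod t, a ≠ 0 → a ^ (p * q) ≠ (r : ZMod t)
  rootP : ∀ u a : ZMod t, u ^ p = 1 → u ≠ 1 → a ^ (q * r) ≠ 1 - u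
  rootQ : ∀ u a : ZMod t, u ^ q = 1 → u ≠ 1 → a ^ (p * r) ≠ 1 - u
  rootR : ∀ u a : ZMod t, u ^ r = 1 → u ≠ 1 → a ^ (p * q) ≠ 1 - u
  main : ∀ x y z a b c : ZMod t, x ≠ 0 → y ≠ 0 → z ≠ 0 →
    y ^ r + z ^ q = a ^ (q * r) → x ^ r + z ^ p = b ^ (p * r) → x ^ q + y ^ p = c ^ (p * q) →
    x ^ (q * r) + y ^ (p * r) + z ^ (p * q) ≠ 0

/-- the pairs of part (4) -/
def pairsA : List (ℕ × ℕ) :=
  [(37, 149), (59, 241), (101, 409), (107, 349), (107, 367), (127, 419), (149, 181), (151, 311),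
   (157, 389), (157, 467), (167, 409), (179, 211), (179, 499), (211, 359), (227, 457), (239, 271),
   (257, 307), (263, 487), (313, 347), (433, 491), (449, 457), (467, 487)]

/-- the pairs of part (5) -/
def pairsB : List (ℕ × ℕ) :=
  [(7, 17), (11, 73), (19, 59), (23, 31), (23, 67), (29, 61), (29, 79), (31, 41), (31, 59), (37, 53),
   (41, 43), (41, 61), (59, 67), (73, 83)]

lemma of_noFirst {p q r : ℕ} (hpq : Odd (p * q)) (h : Pool.Agent.TH21.PN.NoFirst p q r) :
    NoFirstCase p q r := by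
  rintro m n k ⟨m', rfl⟩ ⟨n', rfl⟩ ⟨k', rfl⟩ a b c h1 h2 h3 h4 h5 h6 heq
  refine h (a ^ m') (b ^ n') (-(c ^ k')) h1.pow ?_ ?_ ?_ h4.pow_left h5.pow_left ?_
  · exact (h2.pow).neg_right
  · exact (h3.pow).neg_right
  · rw [hpq.neg_pow, ← pow_mul, ← pow_mul, ← pow_mul, mul_comm m', mul_comm n', mul_comm k', heq]
    ring
  · exact (h6.pow_left).neg_left

open Pool.Agent.TH21.PN in
/-- the proof of `Pool.Agent.TH21.PN.pairs`, with the residue class -/
lemma classes (q r : ℕ) (hq : q.Prime) (hr : r.Prime) (hq11 : 11 ≤ q) (hr11 : 11 ≤ r)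
    (hq61 : q ≤ 61) (hr61 : r ≤ 61) (hqr : q ≠ r) :
    ∃ M a : ℕ, 0 < M ∧ Nat.Coprime a M ∧ ∀ p : ℕ, p ≡ a [MOD M] → Odd p → 1 < p →
      Nat.Coprime p q → Nat.Coprime p r → NoFirst p q r := by
  have key : ∀ q r : ℕ, q.Prime → r.Prime → 11 ≤ q → r ≤ 61 → q < r →
      ∃ M a : ℕ, 0 < M ∧ Nat.Coprime a M ∧ ∀ p : ℕ, p ≡ a [MOD M] → Odd p → 1 < p →
        Nat.Coprime p q → Nat.Coprime p r → NoFirst p q r := by
    intro q r hq hr hq11 hr61 hlt
    have hc := covPairs_ok
    unfold covPairs at hc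
    rw [List.all_eq_true] at hc
    have hc1 := hc q (mem_primesList hq (by omega) (by omega))
    rw [Bool.or_eq_true] at hc1
    rcases hc1 with hc1 | hc1
    · have := Nat.le_of_ble_eq_true hc1
      omega
    rw [List.all_eq_true] at hc1
    have hc2 := hc1 r (mem_primesList hr (by omega) hr61)
    rw [Bool.or_eq_true] at hc2
    rcases hc2 with hc2 | hc2
    · have := Nat.le_of_ble_eq_true hc2
      omega
    rw [List.any_eq_true] at hc2
    obtain ⟨⟨t, q', r', g, zq, zr, d, ps⟩, he, h3⟩ := hc2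
    simp only [Bool.and_eq_true, List.any_eq_true] at h3
    obtain ⟨h4, h5, ⟨p0, zp⟩, h6, h7, h8⟩ := h3
    have h4' := Nat.eq_of_beq_eq_true h4
    have h5' := Nat.eq_of_beq_eq_true h5
    subst h4' h5'
    have h7' : p0 % 2 = 1 := Nat.eq_of_beq_eq_true h7
    have h8' : Nat.Coprime p0 (t * (t - 1)) := Nat.eq_of_beq_eq_true h8
    have hp0 : Odd p0 := Nat.odd_iff.2 h7'
    have hqo : Odd q' := hq.odd_of_ne_two (by omega)
    have hro : Odd r' := hr.odd_of_ne_two (by omega)
    obtain ⟨ht, ha⟩ := entry_sound hqo hro (tab_ok _ he) hp0 h6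
    have : Fact t.Prime := ⟨ht⟩
    have ht0 : 0 < t * (t - 1) := Nat.mul_pos ht.pos (by have := ht.one_lt; omega)
    refine ⟨t * (t - 1), p0, ht0, h8', fun p hpm hp hp1 hpq hpr => ?_⟩
    have m1 : p ≡ p0 [MOD t] := hpm.of_dvd (Dvd.intro _ rfl)
    have m2 : p ≡ p0 [MOD (t - 1)] := hpm.of_dvd (Dvd.intro_left _ rfl)
    have ha' : Aux p q' r' t := aux_congr hp0.pos hp.pos
      ((ZMod.natCast_eq_natCast_iff _ _ _).2 m1.symm) m2.symm ha
    exact noFirst_of_aux hp hqo hro hp1 (by omega) (by omega) hpq hpr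
      ((Nat.coprime_primes hq hr).2 (by omega)) ht ha'
  rcases lt_or_gt_of_ne hqr with h1 | h1
  · exact key q r hq hr hq11 hr61 h1
  · obtain ⟨M, a, hM, haM, h⟩ := key r q hr hq hr11 hq61 h1
    exact ⟨M, a, hM, haM, fun p hp1 hp2 hp3 hp4 hp5 => (h p hp1 hp2 hp3 hp5 hp4).swap23⟩

lemma mod_of {t p : ℕ} (ht : 1 < t) (h : ¬ ((t : ℕ) : ℤ) ∣ (p : ℤ) - 1) : p % t ≠ 1 := by
  intro h1
  apply h
  have h2 : p ≡ 1 [MOD t] := by
    unfold Nat.ModEq
    rw [h1, Nat.mod_eq_of_lt ht]
  have h3 := (Nat.modEq_iff_dvd.1 h2.symm)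
  exact_mod_cast h3

lemma mod_of' {t p : ℕ} (ht : 0 < t) (h : ¬ ((t + 1 : ℕ) : ℤ) ∣ (p : ℤ) + 1) : p % (t + 1) ≠ t := by
  intro h1
  apply h
  have h2 : p + 1 ≡ 0 [MOD t + 1] := by
    unfold Nat.ModEq
    rw [Nat.add_mod, h1, Nat.mod_eq_of_lt (a := 1) (by omega), Nat.mod_self, Nat.zero_mod]
  have h3 := (Nat.modEq_zero_iff_dvd.1 h2)
  exact_mod_cast h3

/-- **The first case of the Fermat-Catalan equation with the exponents `q r`, `p r`, `p q`.** -/
theorem result :
    -- (1) the criterion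
    (∀ p q r t : ℕ, Odd p → Odd q → Odd r → 1 < p → 1 < q → 1 < r → Nat.Coprime p q →
      Nat.Coprime p r → Nat.Coprime q r → Auxiliary p q r t → NoFirstCase p q r) ∧
    -- (2) all triples of different primes between `5` and `61`
    (∀ p q r : ℕ, p.Prime → q.Prime → r.Prime → p ∈ Finset.Icc 5 61 → q ∈ Finset.Icc 5 61 →
      r ∈ Finset.Icc 5 61 → p ≠ q → p ≠ r → q ≠ r → NoFirstCase p q r) ∧
    -- (3) a residue class of `p` for every pair of primes between `11` and `61`
    (∀ q r : ℕ, q.Prime → r.Prime → q ∈ Finset.Icc 11 61 → r ∈ Finset.Icc 11 61 → q ≠ r →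
      ∃ M a : ℕ, 0 < M ∧ Nat.Coprime a M ∧ ∀ p : ℕ, p ≡ a [MOD M] → Odd p → 1 < p →
        Nat.Coprime p (q * r) → NoFirstCase p q r) ∧
    -- (4) pairs `q, r` with almost all `p`
    (∀ p q r : ℕ, (q, r) ∈ pairsA → Odd p → 1 < p → Nat.Coprime p (q * r) →
      ¬ (2 * (q * r) + 1 : ℤ) ∣ p - 1 → ¬ (2 * (q * r) + 1 : ℤ) ∣ p + 1 → NoFirstCase p q r) ∧
    -- (5) further pairs `q, r` with almost all `p`
    (∀ p q r : ℕ, (q, r) ∈ pairsB → Odd p → 1 < p → Nat.Coprime p (q * r) →
      ¬ (2 * (q * r) + 1 : ℤ) ∣ p - 1 → ¬ (2 * (q * r) + 1 : ℤ) ∣ p + 1 →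
      ¬ (2 * (q * r) : ℤ) ∣ p - 1 → NoFirstCase p q r) := by
  have odd_of : ∀ s : ℕ, s.Prime → 5 ≤ s → Odd s := fun s hs h5 => hs.odd_of_ne_two (by omega)
  refine ⟨?_, ?_, ?_, ?_, ?_⟩
  · intro p q r t hp hq hr hp1 hq1 hr1 hpq hpr hqr ht
    exact of_noFirst (hp.mul hq) (Pool.Agent.TH21.PN.noFirst_of_aux hp hq hr hp1 hq1 hr1 hpq hpr hqr
      ht.prime ⟨ht.notPowP, ht.notPowQ, ht.notPowR, ht.rootP, ht.rootQ, ht.rootR, ht.main⟩)
  · intro p q r hp hq hr hp5 hq5 hr5 hpq hpr hqr
    rw [Finset.mem_Icc] at hp5 hq5 hr5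
    exact of_noFirst ((odd_of p hp hp5.1).mul (odd_of q hq hq5.1))
      (Pool.Agent.TH21.PN.table p q r hp hq hr hp5.1 hq5.1 hr5.1 hp5.2 hq5.2 hr5.2 hpq hpr hqr)
  · intro q r hq hr hq11 hr11 hqr
    rw [Finset.mem_Icc] at hq11 hr11
    obtain ⟨M, a, hM, haM, h⟩ := classes q r hq hr hq11.1 hr11.1 hq11.2 hr11.2 hqr
    refine ⟨M, a, hM, haM, fun p hpM hp hp1 hc => ?_⟩
    exact of_noFirst (hp.mul (odd_of q hq (by omega)))
      (h p hpM hp hp1 (Nat.Coprime.coprime_mul_right_right hc)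
        (Nat.Coprime.coprime_mul_left_right hc))
  · intro p q r hm hp hp1 hc h1 h2
    have hall : ∀ e ∈ pairsA, Odd e.1 ∧ 0 < e.1 * e.2 ∧
        ∃ e' ∈ Pool.Agent.TH21.PN.famA, e'.1 = e.1 ∧ e'.2.1 = e.2 := by decide
    obtain ⟨hq, hqr, hfam⟩ := hall _ hm
    simp only at hq hqr hfam
    refine of_noFirst (hp.mul hq) (Pool.Agent.TH21.PN.famA_thm hfam hp hp1
      (Nat.Coprime.coprime_mul_right_right hc) (Nat.Coprime.coprime_mul_left_right hc) ?_ ?_)
    · exact mod_of (by omega) (by push_cast; exact h1)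
    · exact mod_of' (by omega) (by push_cast; exact h2)
  · intro p q r hm hp hp1 hc h1 h2 h3
    have hall : ∀ e ∈ pairsB, Odd e.1 ∧ 0 < e.1 * e.2 ∧
        ∃ e' ∈ Pool.Agent.TH21.PN.famB, e'.1 = e.1 ∧ e'.2.1 = e.2 := by decide
    obtain ⟨hq, hqr, hfam⟩ := hall _ hm
    simp only at hq hqr hfam
    refine of_noFirst (hp.mul hq) (Pool.Agent.TH21.PN.famB_thm hfam hp hp1
      (Nat.Coprime.coprime_mul_right_right hc) (Nat.Coprime.coprime_mul_left_right hc) ?_ ?_ ?_)
    · exact mod_of (by omega) (by push_cast; exact h3)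
    · exact mod_of (by omega) (by push_cast; exact h1)
    · exact mod_of' (by omega) (by push_cast; exact h2)

end Pool.Agent.Results.MP_5585eb_nt.FirstCaseProductExponents
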